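import Pool.Agent.H4.EPB.Stm

/-! Part BB9 of the project EP: from witnesses to codes. -/

set_option autoImplicit false
set_option linter.unreachableTactic false
set_option linter.unusedTactic false

namespace Pool.Agent.H4.EPB

open Pool.Agent.Helper687.Arith Pool.Agent.H51.EP

section

variable {M : Type} [PAModel M]

theorem BB9_cop_dvd {a q b : M} (h : Cop a q) (hd : q ∣ a * b) : q ∣ b := by
  obtain ⟨x, z, hx⟩ := h
  obtain ⟨e, he⟩ := hd
  refine cg_dvd (b := z * q * b) ⟨z * b, x * e, ?_⟩
  calc z * q * b + b + q * (z * b) = (z * q + 1) * b + q * (z * b) := by ring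
    _ = x * (a * b) + q * (z * b) := by rw [← hx]; ring
    _ = _ := by rw [he]; ring

theorem BB9_cop_fc {q Q : M} (h : ∀ i, 0 < i → i ≤ Q → Cop i q) : ∀ n : M, n ≤ Q → Cop (fc n) q := by
  intro n
  refine ind (P := fun n => n ≤ Q → Cop (fc n) q) ?_ ?_ ?_ n
  · unfold Cop
    (repeat' first | with_reducible apply Pool.Agent.H51.EP.Def.cg | with_reducible apply Pool.Agent.H51.EP.DefF.pr | with_reducible apply Pool.Agent.H51.EP.DefF.bn | with_reducible apply Pool.Agent.H51.EP.DefF.ff | with_reducible apply Pool.Agent.H51.EP.DefF.fc | with_reducible apply Pool.Agent.H51.EP.DefF.pw | with_reducible apply Pool.Agent.H51.EP.DefF.sb | with_reducible apply Pool.Agent.H51.EP.DefF.rc | with_reducible apply Pool.Agent.H51.EP.Def.dvd | assumption | with_reducible exact Pool.Agent.Helper687.Arith.DefF.var _ | with_reducible exact Pool.Agent.Helper687.Arith.DefF.const _ | with_reducible exact Pool.Agent.Helper687.Arith.Def.const _ | with_reducible apply Pool.Agent.Helper687.Arith.DefF.val | with_reducible apply Pool.Agent.Helper687.Arith.DefF.pow2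 | with_reducible apply Pool.Agent.Helper687.Arith.Def.and | with_reducible apply Pool.Agent.Helper687.Arith.Def.or | with_reducible apply Pool.Agent.Helper687.Arith.Def.iff | with_reducible apply Pool.Agent.Helper687.Arith.Def.not | with_reducible apply Pool.Agent.Helper687.Arith.Def.ex | with_reducible apply Pool.Agent.Helper687.Arith.Def.all | with_reducible apply Pool.Agent.Helper687.Arith.Def.imp | with_reducible apply Pool.Agent.Helper687.Arith.Def.eq | with_reducible apply Pool.Agent.Helper687.Arith.Def.lt | with_reducible apply Pool.Agent.Helper687.Arith.Def.le | with_reducible apply Pool.Agent.Helper687.Arith.DefF.add | with_reducible apply Pool.Agent.Helper687.Arith.DefF.mul | with_reducible apply Pool.Agent.Helper687.Arith.DefF.the)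
  · intro _
    rw [fc_zero]
    exact ⟨1, 0, by ring⟩
  · intro n ih hn
    rw [fc_succ]
    exact Cop.mul (ih ((lt_succ_iff.2 le_rfl).le.trans hn)) (h _ (zero_lt_succ' n) hn)

theorem BB9_defF_ev (t : PT) {g : ℕ → (ℕ → M) → M} (hg : ∀ i, DefF (g i)) :
    DefF (fun v => t.ev (fun i => g i v)) := by
  induction t with
  | var i => exact hg i
  | zero => exact DefF.const 0
  | succ t ih => exact ih.add (DefF.const 1)
  | add t s iht ihs => exact iht.add ihs
  | mul t s iht ihs => exact iht.mul ihs

end

theorem BB9 (h4 : S_BB4) (h5 : S_BB5) (h6 : S_BB6) (h7 : S_BB7) : S_BB9 := by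
  intro M _ m t s y v h
  -- witnesses given by codes
  have hdef : ∀ (t : PT) (f g : (ℕ → M) → M), DefF f → DefF g → DefF (fun x =>
      t.ev (apv m (fun j => ap (g x) (j : M)) (cns (f x) v))) := by
    intro t f g hf hg
    refine BB9_defF_ev t (g := fun i x => apv m (fun j => ap (g x) (j : M)) (cns (f x) v) i) ?_
    intro i
    by_cases hi : i < m
    · simp only [apv, hi, if_true]
      exact DefF.ap hg (DefF.const _)
    · simp only [apv, hi, if_false]
      rcases Nat.eq_zero_or_pos (i - m) with h0 | h0
      · rw [h0]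
        exact hf
      · obtain ⟨n, hn⟩ := Nat.exists_eq_succ_of_ne_zero h0.ne'
        rw [hn]
        exact DefF.const _
  set P : M → M → Prop := fun i c => t.ev (apv m (fun j => ap c (j : M)) (cns i v)) =
    s.ev (apv m (fun j => ap c (j : M)) (cns i v)) with hP
  have hPd : Def (fun x : ℕ → M => P (x 0) (x 1)) :=
    Def.eq (hdef t _ _ (DefF.var 0) (DefF.var 1)) (hdef s _ _ (DefF.var 0) (DefF.var 1))
  have hPd' : ∀ {f g : (ℕ → M) → M}, DefF f → DefF g → Def (fun x => P (f x) (g x)) :=
    fun hf hg => Def.sub2 hPd hf hg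
  have hex : ∀ i, i < y → ∃ c, P i c := by
    intro i hi
    obtain ⟨w, hw⟩ := h i hi
    obtain ⟨c, hc⟩ := h7 M m w
    refine ⟨c, ?_⟩
    have e : apv m (fun j => ap c (j : M)) (cns i v) = apv m w (cns i v) := by
      funext j
      by_cases hj : j < m
      · simp only [apv, hj, if_true]
        exact hc j hj
      · simp only [apv, hj, if_false]
    simp only [hP, e]
    exact hw
  set f : M → M := fun i => the (fun c => P i c ∧ ∀ c', c' < c → ¬ P i c') with hf
  have hfd : DefF (fun x : ℕ → M => f (x 0)) := by
    refine DefF.the (Q := fun x c => P (x 0) c ∧ ∀ c', c' < c → ¬ P (x 0) c') ?_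
    refine Def.and (hPd' (DefF.var 1) (DefF.var 0)) (Def.all (Def.imp ?_ (Def.not ?_)))
    · (repeat' first | with_reducible apply Pool.Agent.H51.EP.Def.cg | with_reducible apply Pool.Agent.H51.EP.DefF.pr | with_reducible apply Pool.Agent.H51.EP.DefF.bn | with_reducible apply Pool.Agent.H51.EP.DefF.ff | with_reducible apply Pool.Agent.H51.EP.DefF.fc | with_reducible apply Pool.Agent.H51.EP.DefF.pw | with_reducible apply Pool.Agent.H51.EP.DefF.sb | with_reducible apply Pool.Agent.H51.EP.DefF.rc | with_reducible apply Pool.Agent.H51.EP.Def.dvd | assumption | with_reducible exact Pool.Agent.Helper687.Arith.DefF.var _ | with_reducible exact Pool.Agent.Helper687.Arith.DefF.const _ | with_reducible exact Pool.Agent.Helper687.Arith.Def.const _ | with_reducible apply Pool.Agent.Helper687.Arith.DefF.val | with_reducible apply Pool.Agent.Helper687.Arith.DefF.pow2 | with_reducible apply Pool.Agent.Helper687.Arith.Def.and | with_reducible apply Pool.Agent.Helper687.Arith.Def.or | with_reducible apply Pool.Agent.Helper687.Arith.Def.iff | with_reducible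 apply Pool.Agent.Helper687.Arith.Def.not | with_reducible apply Pool.Agent.Helper687.Arith.Def.ex | with_reducible apply Pool.Agent.Helper687.Arith.Def.all | with_reducible apply Pool.Agent.Helper687.Arith.Def.imp | with_reducible apply Pool.Agent.Helper687.Arith.Def.eq | with_reducible apply Pool.Agent.Helper687.Arith.Def.lt | with_reducible apply Pool.Agent.Helper687.Arith.Def.le | with_reducible apply Pool.Agent.Helper687.Arith.DefF.add | with_reducible apply Pool.Agent.Helper687.Arith.DefF.mul | with_reducible apply Pool.Agent.Helper687.Arith.DefF.the)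
    · exact hPd' (DefF.var 2) (DefF.var 0)
  have hfs : ∀ i, i < y → P i (f i) := by
    intro i hi
    obtain ⟨c, hc, hc'⟩ := least (P := fun c => P i c) (hPd' (DefF.const i) (DefF.var 0)) (hex i hi)
    exact (the_spec (P := fun c => P i c ∧ ∀ c', c' < c → ¬ P i c') ⟨c, ⟨hc, hc'⟩, by
      rintro d ⟨hd, hd'⟩
      rcases lt_trichotomy d c with h1 | h1 | h1
      · exact absurd hd (hc' d h1)
      · exact h1
      · exact absurd hc (hd' c h1)⟩).1
  set F : ℕ → M → M := fun j i => ap (f i) (j : M) with hF
  have hFd : ∀ j, DefF (fun x : ℕ → M => F j (x 0)) := fun j => DefF.ap hfd (DefF.const _)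
  choose B hB using fun j => exists_bound (hFd j) y
  set u : M := ∑ j ∈ Finset.range m, B j with hu
  have hFu : ∀ j, j < m → ∀ i, i < y → F j i ≤ u := by
    intro j hj i hi
    refine (hB j i hi).le.trans ?_
    exact Finset.single_le_sum (f := B) (fun _ _ => zero_le) (Finset.mem_range.2 hj)
  set Q : M := Bd m t s y u v with hQ
  have hQ3 : u + 3 ≤ Q := by
    rw [hQ]
    unfold Bd
    calc u + 3 ≤ (t.ev (apv m (fun _ => u) (cns y v)) + s.ev (apv m (fun _ => u) (cns y v)) + y)
          + (u + 3) := le_add_self
      _ = _ := by ring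
  have hQy : y ≤ Q := by
    rw [hQ]
    unfold Bd
    calc y ≤ y + (t.ev (apv m (fun _ => u) (cns y v)) + s.ev (apv m (fun _ => u) (cns y v))
          + u + 3) := le_self_add
      _ = _ := by ring
  have hQpos : 0 < Q := lt_of_lt_of_le (by positivity) hQ3
  obtain ⟨c, hc⟩ := exists_pred (mul_pos (fc_pos Q) (fc_pos Q))
  have hMd : Md Q (fc Q) c y := by
    refine ⟨fun i h0 hi => dvd_fc h0 hi, ?_, hc.symm, hQy⟩
    have h1 : Q ≤ fc Q := by
      obtain ⟨e, he⟩ := dvd_fc hQpos (le_refl Q)
      rw [he]
      have he0 : 0 < e := by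
        apply pos_of_ne
        rintro rfl
        rw [mul_zero] at he
        exact (fc_pos Q).ne' he
      obtain ⟨e', rfl⟩ := exists_pred he0
      rw [mul_add, mul_one]
      exact le_add_self
    refine lt_of_lt_of_le ?_ (hQ3.trans h1)
    have : (2 : M) < 0 + 3 := by
      rw [zero_add]
      have h3 : (3 : M) = 2 + 1 := by norm_num
      rw [h3]
      exact lt_succ_iff.2 le_rfl
    exact this.trans_le (add_le_add zero_le le_rfl)
  obtain ⟨-, h52, -⟩ := h5 M Q (fc Q) c y hMd
  obtain ⟨-, h62, h63⟩ := h6 M Q (fc Q) c y hMd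
  choose a ha using fun j => h63 (F j) (hFd j)
  refine ⟨u, a, c, hc.symm, fun j hj => ?_, ?_⟩
  · refine h62 _ fun k mk hk e => ?_
    have hff : mk ∣ ff (a j) (u + 1) :=
      h4.2 M mk (a j) (F j k) (u + 1) (lt_succ_iff.2 (hFu j hj k hk)) (ha j k mk hk e)
    rw [← fc_mul_bn] at hff
    refine BB9_cop_dvd (BB9_cop_fc (h52 k mk hk e).2.2.2.2 (u + 1) ?_) hff
    refine le_trans ?_ hQ3
    gcongr
    have h3 : (3 : M) = 1 + 2 := by norm_num
    rw [h3]
    exact le_self_add
  · have key : ∀ k mk, k < y → (k + 1) * (mk + 1) = c + 1 →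
        Cg mk (t.ev (apv m a (cns c v))) (s.ev (apv m a (cns c v))) := by
      intro k mk hk e
      have hpt : ∀ i, Cg mk (apv m a (cns c v) i) (apv m (fun j => F j k) (cns k v) i) := by
        intro i
        by_cases hi : i < m
        · simp only [apv, hi, if_true]
          exact ha i k mk hk e
        · simp only [apv, hi, if_false]
          rcases Nat.eq_zero_or_pos (i - m) with h0 | h0
          · rw [h0]
            exact (h52 k mk hk e).2.1
          · obtain ⟨n, hn⟩ := Nat.exists_eq_succ_of_ne_zero h0.ne'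
            rw [hn]
            exact cg_rfl _ _
      have e1 := ev_cg t hpt
      have e2 := ev_cg s hpt
      have e3 : t.ev (apv m (fun j => F j k) (cns k v)) = s.ev (apv m (fun j => F j k) (cns k v)) :=
        hfs k hk
      rw [e3] at e1
      exact cg_trans e1 (cg_symm e2)
    rcases le_total (s.ev (apv m a (cns c v))) (t.ev (apv m a (cns c v))) with hle | hle
    · obtain ⟨d, hd⟩ := exists_add_of_le hle
      rw [hd] at key ⊢
      exact cg_of_add (h62 d fun k mk hk e => cg_dvd (key k mk hk e))
    · obtain ⟨d, hd⟩ := exists_add_of_le hle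
      rw [hd] at key ⊢
      exact cg_symm (cg_of_add (h62 d fun k mk hk e => cg_dvd (cg_symm (key k mk hk e))))

end Pool.Agent.H4.EPB
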