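import Pool.Agent.H4.EPB.Stm

/-! Assembly of the bounded quantifier theorem. -/

set_option autoImplicit false

namespace Pool.Agent.H4.EPB

open Pool.Agent.Helper687.Arith Pool.Agent.H51.EP

theorem ball (h1 : S_BB1) (h2 : S_BB2) (h8 : S_BB8) (h9 : S_BB9) (h10 : S_BB10) (h11 : S_BB11) :
    S_POW → S_BALL := by
  intro hp S f hS hf
  have hb := h1 hp
  have hc := h2 hp hb
  obtain ⟨φ, hφ⟩ := hS
  obtain ⟨m, t, s, hn⟩ := h8 φ
  refine (h11 hb hc m t s f hf).congr fun M _ v => ?_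
  have key : ∀ i, S M v i ↔ ∃ w : ℕ → M, t.ev (apv m w (cns i v)) = s.ev (apv m w (cns i v)) := by
    intro i
    rw [← hn M (cns i v), hφ M (cns i v)]
    rfl
  constructor
  · rintro ⟨u, a, h⟩ i hi
    rw [key]
    exact h10 M m t s (f M v) u v a h i hi
  · intro h
    exact h9 M m t s (f M v) v (fun i hi => (key i).1 (h i hi))

end Pool.Agent.H4.EPB
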