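import Pool.Agent.H4.EPB.Ball
import Pool.Agent.H4.EPB.BB9
import Pool.Agent.H12.EP.BB6
import Pool.Agent.H26.EP.BB3
import Pool.Agent.H26.EP.BB4
import Pool.Agent.H26.EP.BB5
import Pool.Agent.H29.EP.BB7
import Pool.Agent.H37.EP.BB11
import Pool.Agent.H42.EP.BB12
import Pool.Agent.H87.EP.BB10
import Pool.Agent.H97.EP.BB8

/-! The bounded quantifier theorem from exponentiation. -/

set_option autoImplicit false

namespace Pool.Agent.H4.EPB

open Pool.Agent.H51.EP

/-- existentially definable relations are closed under bounded universal quantification -/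
theorem BALL (hP : S_POW) : S_BALL :=
  ball Pool.Agent.H42.EP.BB1 Pool.Agent.H42.EP.BB2 Pool.Agent.H97.EP.BB8
    (BB9 Pool.Agent.H26.EP.bb4 Pool.Agent.H26.EP.bb5
      (Pool.Agent.H12.EP.BB6 Pool.Agent.H26.EP.bb5) Pool.Agent.H29.EP.BB7)
    (Pool.Agent.H87.EP.BB10 Pool.Agent.H26.EP.bb3 Pool.Agent.H26.EP.bb4 Pool.Agent.H26.EP.bb5)
    Pool.Agent.H37.EP.BB11 hP

end Pool.Agent.H4.EPB
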