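import Pool.Agent.H51.EP.Num0

/-! Part BB0 of the project EP: elementary facts on truncated subtraction, powers, factorials,
falling factorials, binomial coefficients, congruences. -/

set_option autoImplicit false
set_option linter.unreachableTactic false
set_option linter.unusedTactic false

namespace Pool.Agent.H4.EPB

open Pool.Agent.Helper687.Arith Pool.Agent.H51.EP

variable {M : Type} [PAModel M]

/-! ### truncated subtraction -/

theorem sb_add' (b x : M) : sb (b + x) b = x :=
  add_left_cancel (sb_add (a := b + x) (b := b) le_self_add)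

theorem sb_self' (b : M) : sb b b = 0 := by simpa using sb_add' b 0

theorem sb_zero' (a : M) : sb a 0 = a := by simpa using sb_add' 0 a

theorem sb_succ_succ (a b : M) : sb (a + 1) (b + 1) = sb a b := by
  rcases le_or_gt b a with h | h
  · obtain ⟨z, rfl⟩ := exists_add_of_le h
    rw [sb_add', show b + z + 1 = (b + 1) + z by ring, sb_add']
  · rw [sb_zero h.le, sb_zero (by gcongr)]

/-! ### powers -/

theorem pw_one (x : M) : pw x 1 = x := by
  have := pw_succ x 0
  rwa [zero_add, pw_zero, one_mul] at this

theorem pw_add (x m n : M) : pw x (m + n) = pw x m * pw x n := by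
  refine ind (P := fun n => pw x (m + n) = pw x m * pw x n) ?_ ?_ ?_ n
  · (repeat' first | with_reducible apply Pool.Agent.H51.EP.Def.cg | with_reducible apply Pool.Agent.H51.EP.DefF.pr | with_reducible apply Pool.Agent.H51.EP.DefF.bn | with_reducible apply Pool.Agent.H51.EP.DefF.ff | with_reducible apply Pool.Agent.H51.EP.DefF.fc | with_reducible apply Pool.Agent.H51.EP.DefF.pw | with_reducible apply Pool.Agent.H51.EP.DefF.sb | with_reducible apply Pool.Agent.H51.EP.DefF.rc | with_reducible apply Pool.Agent.H51.EP.Def.dvd | assumption | with_reducible exact Pool.Agent.Helper687.Arith.DefF.var _ | with_reducible exact Pool.Agent.Helper687.Arith.DefF.const _ | with_reducible exact Pool.Agent.Helper687.Arith.Def.const _ | with_reducible apply Pool.Agent.Helper687.Arith.DefF.val | with_reducible apply Pool.Agent.Helper687.Arith.DefF.pow2 | with_reducible apply Pool.Agent.Helper687.Arith.Def.and | with_reducible apply Pool.Agent.Helper687.Arith.Def.or | with_reducible apply Pool.Agent.Helper687.Arith.Def.iff | with_reducible apply Pool.Agent.Helper687.Arith.Def.not | with_reducible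 apply Pool.Agent.Helper687.Arith.Def.ex | with_reducible apply Pool.Agent.Helper687.Arith.Def.all | with_reducible apply Pool.Agent.Helper687.Arith.Def.imp | with_reducible apply Pool.Agent.Helper687.Arith.Def.eq | with_reducible apply Pool.Agent.Helper687.Arith.Def.lt | with_reducible apply Pool.Agent.Helper687.Arith.Def.le | with_reducible apply Pool.Agent.Helper687.Arith.DefF.add | with_reducible apply Pool.Agent.Helper687.Arith.DefF.mul | with_reducible apply Pool.Agent.Helper687.Arith.DefF.the)
  · rw [add_zero, pw_zero, mul_one]
  · intro n ih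
    rw [← add_assoc, pw_succ, ih, pw_succ, mul_assoc]

theorem pw_pos {x : M} (hx : 0 < x) (n : M) : 0 < pw x n := by
  refine ind (P := fun n => 0 < pw x n) ?_ ?_ ?_ n
  · (repeat' first | with_reducible apply Pool.Agent.H51.EP.Def.cg | with_reducible apply Pool.Agent.H51.EP.DefF.pr | with_reducible apply Pool.Agent.H51.EP.DefF.bn | with_reducible apply Pool.Agent.H51.EP.DefF.ff | with_reducible apply Pool.Agent.H51.EP.DefF.fc | with_reducible apply Pool.Agent.H51.EP.DefF.pw | with_reducible apply Pool.Agent.H51.EP.DefF.sb | with_reducible apply Pool.Agent.H51.EP.DefF.rc | with_reducible apply Pool.Agent.H51.EP.Def.dvd | assumption | with_reducible exact Pool.Agent.Helper687.Arith.DefF.var _ | with_reducible exact Pool.Agent.Helper687.Arith.DefF.const _ | with_reducible exact Pool.Agent.Helper687.Arith.Def.const _ | with_reducible apply Pool.Agent.Helper687.Arith.DefF.val | with_reducible apply Pool.Agent.Helper687.Arith.DefF.pow2 | with_reducible apply Pool.Agent.Helper687.Arith.Def.and | with_reducible apply Pool.Agent.Helper687.Arith.Def.or | with_reducible apply Pool.Agent.Helper687.Arith.Def.iff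 | with_reducible apply Pool.Agent.Helper687.Arith.Def.not | with_reducible apply Pool.Agent.Helper687.Arith.Def.ex | with_reducible apply Pool.Agent.Helper687.Arith.Def.all | with_reducible apply Pool.Agent.Helper687.Arith.Def.imp | with_reducible apply Pool.Agent.Helper687.Arith.Def.eq | with_reducible apply Pool.Agent.Helper687.Arith.Def.lt | with_reducible apply Pool.Agent.Helper687.Arith.Def.le | with_reducible apply Pool.Agent.Helper687.Arith.DefF.add | with_reducible apply Pool.Agent.Helper687.Arith.DefF.mul | with_reducible apply Pool.Agent.Helper687.Arith.DefF.the)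
  · rw [pw_zero]; exact zero_lt_one
  · intro n ih
    rw [pw_succ]
    exact mul_pos ih hx

theorem one_pw (n : M) : pw (1 : M) n = 1 := by
  refine ind (P := fun n => pw 1 n = 1) ?_ ?_ ?_ n
  · (repeat' first | with_reducible apply Pool.Agent.H51.EP.Def.cg | with_reducible apply Pool.Agent.H51.EP.DefF.pr | with_reducible apply Pool.Agent.H51.EP.DefF.bn | with_reducible apply Pool.Agent.H51.EP.DefF.ff | with_reducible apply Pool.Agent.H51.EP.DefF.fc | with_reducible apply Pool.Agent.H51.EP.DefF.pw | with_reducible apply Pool.Agent.H51.EP.DefF.sb | with_reducible apply Pool.Agent.H51.EP.DefF.rc | with_reducible apply Pool.Agent.H51.EP.Def.dvd | assumption | with_reducible exact Pool.Agent.Helper687.Arith.DefF.var _ | with_reducible exact Pool.Agent.Helper687.Arith.DefF.const _ | with_reducible exact Pool.Agent.Helper687.Arith.Def.const _ | with_reducible apply Pool.Agent.Helper687.Arith.DefF.val | with_reducible apply Pool.Agent.Helper687.Arith.DefF.pow2 | with_reducible apply Pool.Agent.Helper687.Arith.Def.and | with_reducible apply Pool.Agent.Helper687.Arith.Def.or | with_reducible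 apply Pool.Agent.Helper687.Arith.Def.iff | with_reducible apply Pool.Agent.Helper687.Arith.Def.not | with_reducible apply Pool.Agent.Helper687.Arith.Def.ex | with_reducible apply Pool.Agent.Helper687.Arith.Def.all | with_reducible apply Pool.Agent.Helper687.Arith.Def.imp | with_reducible apply Pool.Agent.Helper687.Arith.Def.eq | with_reducible apply Pool.Agent.Helper687.Arith.Def.lt | with_reducible apply Pool.Agent.Helper687.Arith.Def.le | with_reducible apply Pool.Agent.Helper687.Arith.DefF.add | with_reducible apply Pool.Agent.Helper687.Arith.DefF.mul | with_reducible apply Pool.Agent.Helper687.Arith.DefF.the)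
  · exact pw_zero 1
  · intro n ih
    rw [pw_succ, ih, mul_one]

theorem mul_pw (x y n : M) : pw (x * y) n = pw x n * pw y n := by
  refine ind (P := fun n => pw (x * y) n = pw x n * pw y n) ?_ ?_ ?_ n
  · (repeat' first | with_reducible apply Pool.Agent.H51.EP.Def.cg | with_reducible apply Pool.Agent.H51.EP.DefF.pr | with_reducible apply Pool.Agent.H51.EP.DefF.bn | with_reducible apply Pool.Agent.H51.EP.DefF.ff | with_reducible apply Pool.Agent.H51.EP.DefF.fc | with_reducible apply Pool.Agent.H51.EP.DefF.pw | with_reducible apply Pool.Agent.H51.EP.DefF.sb | with_reducible apply Pool.Agent.H51.EP.DefF.rc | with_reducible apply Pool.Agent.H51.EP.Def.dvd | assumption | with_reducible exact Pool.Agent.Helper687.Arith.DefF.var _ | with_reducible exact Pool.Agent.Helper687.Arith.DefF.const _ | with_reducible exact Pool.Agent.Helper687.Arith.Def.const _ | with_reducible apply Pool.Agent.Helper687.Arith.DefF.val | with_reducible apply Pool.Agent.Helper687.Arith.DefF.pow2 | with_reducible apply Pool.Agent.Helper687.Arith.Def.and | with_reducible apply Pool.Agent.Helper687.Arith.Def.or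 | with_reducible apply Pool.Agent.Helper687.Arith.Def.iff | with_reducible apply Pool.Agent.Helper687.Arith.Def.not | with_reducible apply Pool.Agent.Helper687.Arith.Def.ex | with_reducible apply Pool.Agent.Helper687.Arith.Def.all | with_reducible apply Pool.Agent.Helper687.Arith.Def.imp | with_reducible apply Pool.Agent.Helper687.Arith.Def.eq | with_reducible apply Pool.Agent.Helper687.Arith.Def.lt | with_reducible apply Pool.Agent.Helper687.Arith.Def.le | with_reducible apply Pool.Agent.Helper687.Arith.DefF.add | with_reducible apply Pool.Agent.Helper687.Arith.DefF.mul | with_reducible apply Pool.Agent.Helper687.Arith.DefF.the)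
  · rw [pw_zero, pw_zero, pw_zero, one_mul]
  · intro n ih
    rw [pw_succ, ih, pw_succ, pw_succ]
    ring

theorem pw_le_pw_left {x y : M} (h : x ≤ y) (n : M) : pw x n ≤ pw y n := by
  refine ind (P := fun n => pw x n ≤ pw y n) ?_ ?_ ?_ n
  · (repeat' first | with_reducible apply Pool.Agent.H51.EP.Def.cg | with_reducible apply Pool.Agent.H51.EP.DefF.pr | with_reducible apply Pool.Agent.H51.EP.DefF.bn | with_reducible apply Pool.Agent.H51.EP.DefF.ff | with_reducible apply Pool.Agent.H51.EP.DefF.fc | with_reducible apply Pool.Agent.H51.EP.DefF.pw | with_reducible apply Pool.Agent.H51.EP.DefF.sb | with_reducible apply Pool.Agent.H51.EP.DefF.rc | with_reducible apply Pool.Agent.H51.EP.Def.dvd | assumption | with_reducible exact Pool.Agent.Helper687.Arith.DefF.var _ | with_reducible exact Pool.Agent.Helper687.Arith.DefF.const _ | with_reducible exact Pool.Agent.Helper687.Arith.Def.const _ | with_reducible apply Pool.Agent.Helper687.Arith.DefF.val | with_reducible apply Pool.Agent.Helper687.Arith.DefF.pow2 | with_reducible apply Pool.Agent.Helper687.Arith.Def.and | with_reducible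 apply Pool.Agent.Helper687.Arith.Def.or | with_reducible apply Pool.Agent.Helper687.Arith.Def.iff | with_reducible apply Pool.Agent.Helper687.Arith.Def.not | with_reducible apply Pool.Agent.Helper687.Arith.Def.ex | with_reducible apply Pool.Agent.Helper687.Arith.Def.all | with_reducible apply Pool.Agent.Helper687.Arith.Def.imp | with_reducible apply Pool.Agent.Helper687.Arith.Def.eq | with_reducible apply Pool.Agent.Helper687.Arith.Def.lt | with_reducible apply Pool.Agent.Helper687.Arith.Def.le | with_reducible apply Pool.Agent.Helper687.Arith.DefF.add | with_reducible apply Pool.Agent.Helper687.Arith.DefF.mul | with_reducible apply Pool.Agent.Helper687.Arith.DefF.the)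
  · rw [pw_zero, pw_zero]
  · intro n ih
    rw [pw_succ, pw_succ]
    exact mul_le_mul ih h zero_le zero_le

theorem lt_pw_two (n : M) : n < pw 2 n := by
  refine ind (P := fun n => n < pw 2 n) ?_ ?_ ?_ n
  · (repeat' first | with_reducible apply Pool.Agent.H51.EP.Def.cg | with_reducible apply Pool.Agent.H51.EP.DefF.pr | with_reducible apply Pool.Agent.H51.EP.DefF.bn | with_reducible apply Pool.Agent.H51.EP.DefF.ff | with_reducible apply Pool.Agent.H51.EP.DefF.fc | with_reducible apply Pool.Agent.H51.EP.DefF.pw | with_reducible apply Pool.Agent.H51.EP.DefF.sb | with_reducible apply Pool.Agent.H51.EP.DefF.rc | with_reducible apply Pool.Agent.H51.EP.Def.dvd | assumption | with_reducible exact Pool.Agent.Helper687.Arith.DefF.var _ | with_reducible exact Pool.Agent.Helper687.Arith.DefF.const _ | with_reducible exact Pool.Agent.Helper687.Arith.Def.const _ | with_reducible apply Pool.Agent.Helper687.Arith.DefF.val | with_reducible apply Pool.Agent.Helper687.Arith.DefF.pow2 | with_reducible apply Pool.Agent.Helper687.Arith.Def.and | with_reducible apply Pool.Agent.Helper687.Arith.Def.or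 | with_reducible apply Pool.Agent.Helper687.Arith.Def.iff | with_reducible apply Pool.Agent.Helper687.Arith.Def.not | with_reducible apply Pool.Agent.Helper687.Arith.Def.ex | with_reducible apply Pool.Agent.Helper687.Arith.Def.all | with_reducible apply Pool.Agent.Helper687.Arith.Def.imp | with_reducible apply Pool.Agent.Helper687.Arith.Def.eq | with_reducible apply Pool.Agent.Helper687.Arith.Def.lt | with_reducible apply Pool.Agent.Helper687.Arith.Def.le | with_reducible apply Pool.Agent.Helper687.Arith.DefF.add | with_reducible apply Pool.Agent.Helper687.Arith.DefF.mul | with_reducible apply Pool.Agent.Helper687.Arith.DefF.the)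
  · rw [pw_zero]; exact zero_lt_one
  · intro n ih
    rw [pw_succ, mul_two]
    exact lt_of_le_of_lt (succ_le_iff.2 ih) (lt_add_of_pos_right _ (lt_of_le_of_lt zero_le ih))

/-! ### factorials and falling factorials -/

theorem fc_pos (n : M) : 0 < fc n := by
  refine ind (P := fun n => 0 < fc n) ?_ ?_ ?_ n
  · (repeat' first | with_reducible apply Pool.Agent.H51.EP.Def.cg | with_reducible apply Pool.Agent.H51.EP.DefF.pr | with_reducible apply Pool.Agent.H51.EP.DefF.bn | with_reducible apply Pool.Agent.H51.EP.DefF.ff | with_reducible apply Pool.Agent.H51.EP.DefF.fc | with_reducible apply Pool.Agent.H51.EP.DefF.pw | with_reducible apply Pool.Agent.H51.EP.DefF.sb | with_reducible apply Pool.Agent.H51.EP.DefF.rc | with_reducible apply Pool.Agent.H51.EP.Def.dvd | assumption | with_reducible exact Pool.Agent.Helper687.Arith.DefF.var _ | with_reducible exact Pool.Agent.Helper687.Arith.DefF.const _ | with_reducible exact Pool.Agent.Helper687.Arith.Def.const _ | with_reducible apply Pool.Agent.Helper687.Arith.DefF.val | with_reducible apply Pool.Agent.Helper687.Arith.DefF.pow2 | with_reducible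 apply Pool.Agent.Helper687.Arith.Def.and | with_reducible apply Pool.Agent.Helper687.Arith.Def.or | with_reducible apply Pool.Agent.Helper687.Arith.Def.iff | with_reducible apply Pool.Agent.Helper687.Arith.Def.not | with_reducible apply Pool.Agent.Helper687.Arith.Def.ex | with_reducible apply Pool.Agent.Helper687.Arith.Def.all | with_reducible apply Pool.Agent.Helper687.Arith.Def.imp | with_reducible apply Pool.Agent.Helper687.Arith.Def.eq | with_reducible apply Pool.Agent.Helper687.Arith.Def.lt | with_reducible apply Pool.Agent.Helper687.Arith.Def.le | with_reducible apply Pool.Agent.Helper687.Arith.DefF.add | with_reducible apply Pool.Agent.Helper687.Arith.DefF.mul | with_reducible apply Pool.Agent.Helper687.Arith.DefF.the)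
  · rw [fc_zero]; exact zero_lt_one
  · intro n ih
    rw [fc_succ]
    exact mul_pos ih (zero_lt_succ' _)

/-- every `1 ≤ i ≤ n` divides `n!` -/
theorem dvd_fc {i n : M} (hi : 0 < i) (hn : i ≤ n) : i ∣ fc n := by
  have : ∀ n : M, i ≤ n → i ∣ fc n := by
    intro n
    refine ind (P := fun n => i ≤ n → i ∣ fc n) ?_ ?_ ?_ n
    · (repeat' first | with_reducible apply Pool.Agent.H51.EP.Def.cg | with_reducible apply Pool.Agent.H51.EP.DefF.pr | with_reducible apply Pool.Agent.H51.EP.DefF.bn | with_reducible apply Pool.Agent.H51.EP.DefF.ff | with_reducible apply Pool.Agent.H51.EP.DefF.fc | with_reducible apply Pool.Agent.H51.EP.DefF.pw | with_reducible apply Pool.Agent.H51.EP.DefF.sb | with_reducible apply Pool.Agent.H51.EP.DefF.rc | with_reducible apply Pool.Agent.H51.EP.Def.dvd | assumption | with_reducible exact Pool.Agent.Helper687.Arith.DefF.var _ | with_reducible exact Pool.Agent.Helper687.Arith.DefF.const _ | with_reducible exact Pool.Agent.Helper687.Arith.Def.const _ | with_reducible apply Pool.Agent.Helper687.Arith.DefF.val | with_reducible apply Pool.Agent.Helper687.Arith.DefF.pow2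 | with_reducible apply Pool.Agent.Helper687.Arith.Def.and | with_reducible apply Pool.Agent.Helper687.Arith.Def.or | with_reducible apply Pool.Agent.Helper687.Arith.Def.iff | with_reducible apply Pool.Agent.Helper687.Arith.Def.not | with_reducible apply Pool.Agent.Helper687.Arith.Def.ex | with_reducible apply Pool.Agent.Helper687.Arith.Def.all | with_reducible apply Pool.Agent.Helper687.Arith.Def.imp | with_reducible apply Pool.Agent.Helper687.Arith.Def.eq | with_reducible apply Pool.Agent.Helper687.Arith.Def.lt | with_reducible apply Pool.Agent.Helper687.Arith.Def.le | with_reducible apply Pool.Agent.Helper687.Arith.DefF.add | with_reducible apply Pool.Agent.Helper687.Arith.DefF.mul | with_reducible apply Pool.Agent.Helper687.Arith.DefF.the)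
    · intro h
      exact absurd hi (not_lt.2 h)
    · intro n ih h
      rw [fc_succ]
      rcases h.lt_or_eq with h | h
      · exact (ih (lt_succ_iff.1 h)).mul_right _
      · rw [h]
        exact dvd_mul_left _ _
  exact this n hn

theorem ff_succ_left (a k : M) : ff (a + 1) (k + 1) = (a + 1) * ff a k := by
  refine ind (P := fun k => ff (a + 1) (k + 1) = (a + 1) * ff a k) ?_ ?_ ?_ k
  · (repeat' first | with_reducible apply Pool.Agent.H51.EP.Def.cg | with_reducible apply Pool.Agent.H51.EP.DefF.pr | with_reducible apply Pool.Agent.H51.EP.DefF.bn | with_reducible apply Pool.Agent.H51.EP.DefF.ff | with_reducible apply Pool.Agent.H51.EP.DefF.fc | with_reducible apply Pool.Agent.H51.EP.DefF.pw | with_reducible apply Pool.Agent.H51.EP.DefF.sb | with_reducible apply Pool.Agent.H51.EP.DefF.rc | with_reducible apply Pool.Agent.H51.EP.Def.dvd | assumption | with_reducible exact Pool.Agent.Helper687.Arith.DefF.var _ | with_reducible exact Pool.Agent.Helper687.Arith.DefF.const _ | with_reducible exact Pool.Agent.Helper687.Arith.Def.const _ | with_reducible apply Pool.Agent.Helper687.Arith.DefF.val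 | with_reducible apply Pool.Agent.Helper687.Arith.DefF.pow2 | with_reducible apply Pool.Agent.Helper687.Arith.Def.and | with_reducible apply Pool.Agent.Helper687.Arith.Def.or | with_reducible apply Pool.Agent.Helper687.Arith.Def.iff | with_reducible apply Pool.Agent.Helper687.Arith.Def.not | with_reducible apply Pool.Agent.Helper687.Arith.Def.ex | with_reducible apply Pool.Agent.Helper687.Arith.Def.all | with_reducible apply Pool.Agent.Helper687.Arith.Def.imp | with_reducible apply Pool.Agent.Helper687.Arith.Def.eq | with_reducible apply Pool.Agent.Helper687.Arith.Def.lt | with_reducible apply Pool.Agent.Helper687.Arith.Def.le | with_reducible apply Pool.Agent.Helper687.Arith.DefF.add | with_reducible apply Pool.Agent.Helper687.Arith.DefF.mul | with_reducible apply Pool.Agent.Helper687.Arith.DefF.the)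
  · rw [zero_add]
    have := ff_succ (a + 1) 0
    rw [zero_add, ff_zero, one_mul, sb_zero'] at this
    rw [this, ff_zero, mul_one]
  · intro k ih
    rw [ff_succ, ih, ff_succ a k, sb_succ_succ]
    ring

theorem ff_eq_zero {a k : M} (h : a < k) : ff a k = 0 := by
  have : ∀ k : M, a < k → ff a k = 0 := by
    intro k
    refine ind (P := fun k => a < k → ff a k = 0) ?_ ?_ ?_ k
    · (repeat' first | with_reducible apply Pool.Agent.H51.EP.Def.cg | with_reducible apply Pool.Agent.H51.EP.DefF.pr | with_reducible apply Pool.Agent.H51.EP.DefF.bn | with_reducible apply Pool.Agent.H51.EP.DefF.ff | with_reducible apply Pool.Agent.H51.EP.DefF.fc | with_reducible apply Pool.Agent.H51.EP.DefF.pw | with_reducible apply Pool.Agent.H51.EP.DefF.sb | with_reducible apply Pool.Agent.H51.EP.DefF.rc | with_reducible apply Pool.Agent.H51.EP.Def.dvd | assumption | with_reducible exact Pool.Agent.Helper687.Arith.DefF.var _ | with_reducible exact Pool.Agent.Helper687.Arith.DefF.const _ | with_reducible exact Pool.Agent.Helper687.Arith.Def.const _ | with_reducible apply Pool.Agent.Helper687.Arith.DefF.val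 | with_reducible apply Pool.Agent.Helper687.Arith.DefF.pow2 | with_reducible apply Pool.Agent.Helper687.Arith.Def.and | with_reducible apply Pool.Agent.Helper687.Arith.Def.or | with_reducible apply Pool.Agent.Helper687.Arith.Def.iff | with_reducible apply Pool.Agent.Helper687.Arith.Def.not | with_reducible apply Pool.Agent.Helper687.Arith.Def.ex | with_reducible apply Pool.Agent.Helper687.Arith.Def.all | with_reducible apply Pool.Agent.Helper687.Arith.Def.imp | with_reducible apply Pool.Agent.Helper687.Arith.Def.eq | with_reducible apply Pool.Agent.Helper687.Arith.Def.lt | with_reducible apply Pool.Agent.Helper687.Arith.Def.le | with_reducible apply Pool.Agent.Helper687.Arith.DefF.add | with_reducible apply Pool.Agent.Helper687.Arith.DefF.mul | with_reducible apply Pool.Agent.Helper687.Arith.DefF.the)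
    · intro h
      exact absurd h (not_lt.2 zero_le)
    · intro k ih h
      rw [ff_succ]
      rcases lt_succ_iff'.1 h with h | h
      · rw [ih h, zero_mul]
      · rw [h, sb_self', mul_zero]
  exact this k h

theorem ff_pascal (a k : M) : ff (a + 1) (k + 1) = ff a (k + 1) + (k + 1) * ff a k := by
  rw [ff_succ_left, ff_succ]
  rcases le_or_gt k a with h | h
  · obtain ⟨z, rfl⟩ := exists_add_of_le h
    rw [sb_add']
    ring
  · rw [ff_eq_zero h]
    ring

theorem fc_dvd_ff (k : M) : ∀ a : M, fc k ∣ ff a k := by
  refine ind (P := fun k => ∀ a : M, fc k ∣ ff a k) ?_ ?_ ?_ k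
  · (repeat' first | with_reducible apply Pool.Agent.H51.EP.Def.cg | with_reducible apply Pool.Agent.H51.EP.DefF.pr | with_reducible apply Pool.Agent.H51.EP.DefF.bn | with_reducible apply Pool.Agent.H51.EP.DefF.ff | with_reducible apply Pool.Agent.H51.EP.DefF.fc | with_reducible apply Pool.Agent.H51.EP.DefF.pw | with_reducible apply Pool.Agent.H51.EP.DefF.sb | with_reducible apply Pool.Agent.H51.EP.DefF.rc | with_reducible apply Pool.Agent.H51.EP.Def.dvd | assumption | with_reducible exact Pool.Agent.Helper687.Arith.DefF.var _ | with_reducible exact Pool.Agent.Helper687.Arith.DefF.const _ | with_reducible exact Pool.Agent.Helper687.Arith.Def.const _ | with_reducible apply Pool.Agent.Helper687.Arith.DefF.val | with_reducible apply Pool.Agent.Helper687.Arith.DefF.pow2 | with_reducible apply Pool.Agent.Helper687.Arith.Def.and | with_reducible apply Pool.Agent.Helper687.Arith.Def.or | with_reducible apply Pool.Agent.Helper687.Arith.Def.iff | with_reducible apply Pool.Agent.Helper687.Arith.Def.not | with_reducible apply Pool.Agent.Helper687.Arith.Def.ex | with_reducible apply Pool.Agent.Helper687.Arith.Def.all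 | with_reducible apply Pool.Agent.Helper687.Arith.Def.imp | with_reducible apply Pool.Agent.Helper687.Arith.Def.eq | with_reducible apply Pool.Agent.Helper687.Arith.Def.lt | with_reducible apply Pool.Agent.Helper687.Arith.Def.le | with_reducible apply Pool.Agent.Helper687.Arith.DefF.add | with_reducible apply Pool.Agent.Helper687.Arith.DefF.mul | with_reducible apply Pool.Agent.Helper687.Arith.DefF.the)
  · intro a
    rw [ff_zero, fc_zero]
  · intro k ih a
    refine ind (P := fun a => fc (k + 1) ∣ ff a (k + 1)) ?_ ?_ ?_ a
    · (repeat' first | with_reducible apply Pool.Agent.H51.EP.Def.cg | with_reducible apply Pool.Agent.H51.EP.DefF.pr | with_reducible apply Pool.Agent.H51.EP.DefF.bn | with_reducible apply Pool.Agent.H51.EP.DefF.ff | with_reducible apply Pool.Agent.H51.EP.DefF.fc | with_reducible apply Pool.Agent.H51.EP.DefF.pw | with_reducible apply Pool.Agent.H51.EP.DefF.sb | with_reducible apply Pool.Agent.H51.EP.DefF.rc | with_reducible apply Pool.Agent.H51.EP.Def.dvd | assumption | with_reducible exact Pool.Agent.Helper687.Arith.DefF.var _ | with_reducible exact Pool.Agent.Helper687.Arith.DefF.const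 _ | with_reducible exact Pool.Agent.Helper687.Arith.Def.const _ | with_reducible apply Pool.Agent.Helper687.Arith.DefF.val | with_reducible apply Pool.Agent.Helper687.Arith.DefF.pow2 | with_reducible apply Pool.Agent.Helper687.Arith.Def.and | with_reducible apply Pool.Agent.Helper687.Arith.Def.or | with_reducible apply Pool.Agent.Helper687.Arith.Def.iff | with_reducible apply Pool.Agent.Helper687.Arith.Def.not | with_reducible apply Pool.Agent.Helper687.Arith.Def.ex | with_reducible apply Pool.Agent.Helper687.Arith.Def.all | with_reducible apply Pool.Agent.Helper687.Arith.Def.imp | with_reducible apply Pool.Agent.Helper687.Arith.Def.eq | with_reducible apply Pool.Agent.Helper687.Arith.Def.lt | with_reducible apply Pool.Agent.Helper687.Arith.Def.le | with_reducible apply Pool.Agent.Helper687.Arith.DefF.add | with_reducible apply Pool.Agent.Helper687.Arith.DefF.mul | with_reducible apply Pool.Agent.Helper687.Arith.DefF.the)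
    · rw [ff_eq_zero (zero_lt_succ' k)]
      exact dvd_zero _
    · intro a hc
      rw [ff_pascal]
      refine dvd_add hc ?_
      rw [fc_succ, mul_comm]
      exact mul_dvd_mul_left _ (ih a)

/-! ### binomial coefficients -/

theorem fc_mul_bn (n k : M) : fc k * bn n k = ff n k := by
  obtain ⟨c, hc⟩ := fc_dvd_ff k n
  exact the_spec (P := fun c => fc k * c = ff n k)
    ⟨c, hc.symm, fun d hd => mul_left_cancel₀ (fc_pos k).ne' (hd.trans hc)⟩

theorem bn_eq_iff (n k c : M) : bn n k = c ↔ fc k * c = ff n k := by
  constructor
  · rintro rfl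
    exact fc_mul_bn n k
  · intro h
    exact mul_left_cancel₀ (fc_pos k).ne' ((fc_mul_bn n k).trans h.symm)

theorem bn_zero (n : M) : bn n 0 = 1 := by rw [bn_eq_iff, fc_zero, ff_zero, mul_one]

theorem bn_eq_zero {n k : M} (h : n < k) : bn n k = 0 := by rw [bn_eq_iff, ff_eq_zero h, mul_zero]

theorem bn_pascal (n k : M) : bn (n + 1) (k + 1) = bn n k + bn n (k + 1) := by
  rw [bn_eq_iff, ff_pascal, mul_add, fc_mul_bn, fc_succ, ← fc_mul_bn n k]
  ring

theorem bn_succ_mul (n k : M) : bn n (k + 1) * (k + 1) = bn n k * sb n k := by
  refine mul_left_cancel₀ (fc_pos k).ne' ?_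
  calc fc k * (bn n (k + 1) * (k + 1)) = fc (k + 1) * bn n (k + 1) := by rw [fc_succ]; ring
    _ = ff n (k + 1) := fc_mul_bn _ _
    _ = ff n k * sb n k := ff_succ n k
    _ = _ := by rw [← fc_mul_bn]; ring

theorem bn_le_pw (n : M) : ∀ k : M, bn n k ≤ pw 2 n := by
  refine ind (P := fun n => ∀ k : M, bn n k ≤ pw 2 n) ?_ ?_ ?_ n
  · (repeat' first | with_reducible apply Pool.Agent.H51.EP.Def.cg | with_reducible apply Pool.Agent.H51.EP.DefF.pr | with_reducible apply Pool.Agent.H51.EP.DefF.bn | with_reducible apply Pool.Agent.H51.EP.DefF.ff | with_reducible apply Pool.Agent.H51.EP.DefF.fc | with_reducible apply Pool.Agent.H51.EP.DefF.pw | with_reducible apply Pool.Agent.H51.EP.DefF.sb | with_reducible apply Pool.Agent.H51.EP.DefF.rc | with_reducible apply Pool.Agent.H51.EP.Def.dvd | assumption | with_reducible exact Pool.Agent.Helper687.Arith.DefF.var _ | with_reducible exact Pool.Agent.Helper687.Arith.DefF.const _ | with_reducible exact Pool.Agent.Helper687.Arith.Def.const _ | with_reducible apply Pool.Agent.Helper687.Arith.DefF.val | with_reducible apply Pool.Agent.Helper687.Arith.DefF.pow2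 | with_reducible apply Pool.Agent.Helper687.Arith.Def.and | with_reducible apply Pool.Agent.Helper687.Arith.Def.or | with_reducible apply Pool.Agent.Helper687.Arith.Def.iff | with_reducible apply Pool.Agent.Helper687.Arith.Def.not | with_reducible apply Pool.Agent.Helper687.Arith.Def.ex | with_reducible apply Pool.Agent.Helper687.Arith.Def.all | with_reducible apply Pool.Agent.Helper687.Arith.Def.imp | with_reducible apply Pool.Agent.Helper687.Arith.Def.eq | with_reducible apply Pool.Agent.Helper687.Arith.Def.lt | with_reducible apply Pool.Agent.Helper687.Arith.Def.le | with_reducible apply Pool.Agent.Helper687.Arith.DefF.add | with_reducible apply Pool.Agent.Helper687.Arith.DefF.mul | with_reducible apply Pool.Agent.Helper687.Arith.DefF.the)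
  · intro k
    rw [pw_zero]
    rcases eq_or_ne k 0 with rfl | hk
    · rw [bn_zero]
    · rw [bn_eq_zero (pos_of_ne hk)]
      exact zero_le
  · intro n ih k
    rw [pw_succ, mul_two]
    rcases eq_or_ne k 0 with rfl | hk
    · rw [bn_zero]
      have := ih 0
      rw [bn_zero] at this
      exact this.trans le_self_add
    · obtain ⟨j, rfl⟩ := exists_pred (pos_of_ne hk)
      rw [bn_pascal]
      exact add_le_add (ih j) (ih (j + 1))

theorem ff_pos {n k : M} (h : k ≤ n) : 0 < ff n k := by
  have key : ∀ k : M, k ≤ n → 0 < ff n k := by
    intro k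
    refine ind (P := fun k => k ≤ n → 0 < ff n k) ?_ ?_ ?_ k
    · (repeat' first | with_reducible apply Pool.Agent.H51.EP.Def.cg | with_reducible apply Pool.Agent.H51.EP.DefF.pr | with_reducible apply Pool.Agent.H51.EP.DefF.bn | with_reducible apply Pool.Agent.H51.EP.DefF.ff | with_reducible apply Pool.Agent.H51.EP.DefF.fc | with_reducible apply Pool.Agent.H51.EP.DefF.pw | with_reducible apply Pool.Agent.H51.EP.DefF.sb | with_reducible apply Pool.Agent.H51.EP.DefF.rc | with_reducible apply Pool.Agent.H51.EP.Def.dvd | assumption | with_reducible exact Pool.Agent.Helper687.Arith.DefF.var _ | with_reducible exact Pool.Agent.Helper687.Arith.DefF.const _ | with_reducible exact Pool.Agent.Helper687.Arith.Def.const _ | with_reducible apply Pool.Agent.Helper687.Arith.DefF.val | with_reducible apply Pool.Agent.Helper687.Arith.DefF.pow2 | with_reducible apply Pool.Agent.Helper687.Arith.Def.and | with_reducible apply Pool.Agent.Helper687.Arith.Def.or | with_reducible apply Pool.Agent.Helper687.Arith.Def.iff | with_reducible apply Pool.Agent.Helper687.Arith.Def.not | with_reducible apply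 Pool.Agent.Helper687.Arith.Def.ex | with_reducible apply Pool.Agent.Helper687.Arith.Def.all | with_reducible apply Pool.Agent.Helper687.Arith.Def.imp | with_reducible apply Pool.Agent.Helper687.Arith.Def.eq | with_reducible apply Pool.Agent.Helper687.Arith.Def.lt | with_reducible apply Pool.Agent.Helper687.Arith.Def.le | with_reducible apply Pool.Agent.Helper687.Arith.DefF.add | with_reducible apply Pool.Agent.Helper687.Arith.DefF.mul | with_reducible apply Pool.Agent.Helper687.Arith.DefF.the)
    · intro _
      rw [ff_zero]; exact zero_lt_one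
    · intro k ih h
      have hk := succ_le_iff.1 h
      obtain ⟨z, hz⟩ := exists_add_of_le h
      rw [ff_succ]
      refine mul_pos (ih hk.le) ?_
      rw [hz, add_assoc, sb_add', add_comm]
      exact zero_lt_succ' z
  exact key k h

theorem bn_pos {n k : M} (h : k ≤ n) : 0 < bn n k := by
  have h1 := ff_pos h
  rw [← fc_mul_bn] at h1
  exact pos_of_mul_pos_right h1 zero_le

/-! ### congruences -/

theorem cg_rfl (m a : M) : Cg m a a := ⟨0, 0, rfl⟩

theorem cg_symm {m a b : M} (h : Cg m a b) : Cg m b a := by
  obtain ⟨x, y, h⟩ := h
  exact ⟨y, x, h.symm⟩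

theorem cg_trans {m a b c : M} (h : Cg m a b) (h' : Cg m b c) : Cg m a c := by
  obtain ⟨x, y, h⟩ := h
  obtain ⟨x', y', h'⟩ := h'
  refine ⟨x + x', y + y', ?_⟩
  calc a + m * (x + x') = (a + m * x) + m * x' := by ring
    _ = (b + m * x') + m * y := by rw [h]; ring
    _ = _ := by rw [h']; ring

theorem cg_add {m a b c d : M} (h : Cg m a b) (h' : Cg m c d) : Cg m (a + c) (b + d) := by
  obtain ⟨x, y, h⟩ := h
  obtain ⟨x', y', h'⟩ := h'
  refine ⟨x + x', y + y', ?_⟩
  calc a + c + m * (x + x') = (a + m * x) + (c + m * x') := by ring
    _ = _ := by rw [h, h']; ring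

theorem cg_mul {m a b c d : M} (h : Cg m a b) (h' : Cg m c d) : Cg m (a * c) (b * d) := by
  have h1 : ∀ {a b : M} (c : M), Cg m a b → Cg m (a * c) (b * c) := by
    rintro a b c ⟨x, y, h⟩
    refine ⟨x * c, y * c, ?_⟩
    calc a * c + m * (x * c) = (a + m * x) * c := by ring
      _ = _ := by rw [h]; ring
  have h2 := h1 b h'
  rw [mul_comm c b, mul_comm d b] at h2
  exact cg_trans (h1 c h) h2

theorem cg_of_dvd {d m a b : M} (hd : d ∣ m) (h : Cg m a b) : Cg d a b := by
  obtain ⟨e, rfl⟩ := hd
  obtain ⟨x, y, h⟩ := h
  exact ⟨e * x, e * y, by rw [← mul_assoc, h, mul_assoc]⟩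

theorem cg_of_add {m b d : M} (h : m ∣ d) : Cg m (b + d) b := by
  obtain ⟨e, rfl⟩ := h
  exact ⟨0, e, by ring⟩

theorem cg_dvd {m b d : M} (h : Cg m (b + d) b) : m ∣ d := by
  obtain ⟨x, y, h⟩ := h
  have h1 : d + m * x = m * y := by
    apply add_left_cancel (a := b)
    rw [← h]; ring
  rcases eq_or_ne m 0 with rfl | hm
  · rw [zero_mul, zero_mul, add_zero] at h1
    rw [h1]
  · have hxy : x ≤ y := by
      have : m * x ≤ m * y := by rw [← h1]; exact le_add_self
      exact le_of_mul_le_mul_left this (pos_of_ne hm)
    obtain ⟨z, rfl⟩ := exists_add_of_le hxy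
    refine ⟨z, add_right_cancel (b := m * x) ?_⟩
    rw [h1]; ring

theorem cg_eq_of_lt {m a b : M} (h : Cg m a b) (ha : a < m) (hb : b < m) : a = b := by
  obtain ⟨x, y, h⟩ := h
  exact (rem_unique (a := a + m * x) (m := m) (q := x) (r := a) (q' := y) (r' := b)
    (by ring) ha (by rw [h]; ring) hb).2

/-- values of terms at congruent arguments -/
theorem ev_cg (t : PT) {m : M} {v w : ℕ → M} (h : ∀ i, Cg m (v i) (w i)) :
    Cg m (t.ev v) (t.ev w) := by
  induction t with
  | var i => exact h i
  | zero => exact cg_rfl _ _
  | succ t ih => exact cg_add ih (cg_rfl _ _)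
  | add t s iht ihs => exact cg_add iht ihs
  | mul t s iht ihs => exact cg_mul iht ihs

/-- terms are monotone -/
theorem ev_mono (t : PT) {v w : ℕ → M} (h : ∀ i, v i ≤ w i) : t.ev v ≤ t.ev w := by
  induction t with
  | var i => exact h i
  | zero => exact le_rfl
  | succ t ih => exact add_le_add ih le_rfl
  | add t s iht ihs => exact add_le_add iht ihs
  | mul t s iht ihs => exact mul_le_mul iht ihs zero_le zero_le

end Pool.Agent.H4.EPB
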