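import Pool.Agent.H4.EPB.Bin
import Pool.Agent.H51.EP.Stm

/-!
# Statements of the parts BB1 … BB11 (bounded quantifiers) of the project EP

Each part `BBn` proves the proposition `S_BBn` (as `theorem BBn : S_BBn`, or with the hypotheses
indicated in the table `ep_parts`). All facts of `Pool.Agent.H4.EPB.Bin` may be used.
-/

set_option autoImplicit false

namespace Pool.Agent.H4.EPB

open Pool.Agent.Helper687.Arith Pool.Agent.H51.EP

/-- part BB1: digits of `(B + 1) ^ n` in base `B = 2 ^ n + 1`. Prove by induction on `n`: for all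
`k` there are `w`, `u` with `(B+1)^n = w B^(k+1) + C(n,k) B^k + u`, `u B ≤ 2^n B^k` and
(`k = 0 → u = 0`), for any fixed `B` (`bn_pascal`), then use `bn_le_pw` and `rem_unique`. -/
def S_BB1 : Prop := S_POW → Dio (fun _ _ v => v 0 = bn (v 1) (v 2))

/-- part BB2: `n! = ⌊r ^ n / C(r, n)⌋` for `r = n² ((n + 1) ^ n + 1) + 1`: by induction on `j ≤ n`
`r ^ j ≤ ff r j + n * n * pw r (j - 1)` or similar, `n! ≤ (n + 1) ^ n`, `fc n * bn r n = ff r n`. -/
def S_BB2 : Prop := S_POW → Dio (fun _ _ v => v 0 = bn (v 1) (v 2)) →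
  Dio (fun _ _ v => v 0 = fc (v 1))

/-- prime elements -/
def Pri {M : Type} [PAModel M] (p : M) : Prop := 1 < p ∧ ∀ a b, p ∣ a * b → p ∣ a ∨ p ∣ b

/-- part BB3: prime divisors (the least divisor `> 1`; `Bezout`: the least positive number of the
form `s a - t p` divides `p` and `a`) -/
def S_BB3 : Prop := ∀ (M : Type) [PAModel M] (n : M), 1 < n → ∃ p, Pri p ∧ p ∣ n

/-- part BB4: prime divisors and divisors of falling factorials -/
def S_BB4 : Prop :=
  (∀ (M : Type) [PAModel M] (p a k : M), Pri p → p ∣ ff a k → ∃ j, j < k ∧ Cg p a j) ∧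
  (∀ (M : Type) [PAModel M] (m a z k : M), z < k → Cg m a z → m ∣ ff a k)

/-- the data: `L` is divisible by `1, …, Q`, `c + 1 = L²`, `y ≤ Q`, `3 ≤ L`; the moduli are the
numbers `m_k`, `k < y`, with `(k + 1) (m_k + 1) = c + 1`, their product is `C(c, y)` -/
structure Md {M : Type} [PAModel M] (Q L c y : M) : Prop where
  dvd : ∀ i, 0 < i → i ≤ Q → i ∣ L
  two : 2 < L
  sq : c + 1 = L * L
  le : y ≤ Q

/-- part BB5: the moduli (library: `Cop`, `Cop.mul`; `bn_succ_mul`). For `k + 1 ∣ L`, `L = (k+1) e`: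
`m_k + 1 = e L`; `c = k + (k+1) m_k`. -/
def S_BB5 : Prop := ∀ (M : Type) [PAModel M] (Q L c y : M), Md Q L c y →
  (∀ k, k < y → ∃ m, (k + 1) * (m + 1) = c + 1) ∧
  (∀ k m, k < y → (k + 1) * (m + 1) = c + 1 → 1 < m ∧ Cg m c k ∧ m ∣ bn c y ∧
    bn c (k + 1) = bn c k * m ∧ ∀ i, 0 < i → i ≤ Q → Cop i m) ∧
  (∀ j k m n, j < y → k < y → j ≠ k → (j + 1) * (m + 1) = c + 1 → (k + 1) * (n + 1) = c + 1 →
    Cop m n)

/-- part BB6 (uses BB5): `C(c, k)` is coprime to `m_k`; a number divisible by all `m_k` is divisible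
by `C(c, y)`; Chinese remainder theorem (library: `crt_step`, proof of `exists_val`) -/
def S_BB6 : Prop := ∀ (M : Type) [PAModel M] (Q L c y : M), Md Q L c y →
  (∀ k n, k < y → (k + 1) * (n + 1) = c + 1 → Cop (bn c k) n) ∧
  (∀ X, (∀ k m, k < y → (k + 1) * (m + 1) = c + 1 → m ∣ X) → bn c y ∣ X) ∧
  (∀ f : M → M, DefF (fun v => f (v 0)) →
    ∃ a, ∀ k m, k < y → (k + 1) * (m + 1) = c + 1 → Cg m a (f k))

/-- part BB7: codes of finite sequences of standard length (induction on `n` with `exists_ap`) -/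
def S_BB7 : Prop := ∀ (M : Type) [PAModel M] (n : ℕ) (w : ℕ → M),
  ∃ c, ∀ j, j < n → ap c (j : M) = w j

/-- the sequence `w 0, …, w (m - 1), v 0, v 1, …` -/
def apv {M : Type} (m : ℕ) (w v : ℕ → M) : ℕ → M := fun i => if i < m then w i else v (i - m)

/-- part BB8: normal form of positive existential formulas -/
def S_BB8 : Prop := ∀ φ : EF, ∃ (m : ℕ) (t s : PT), ∀ (M : Type) [PAModel M] (v : ℕ → M),
  φ.ev v ↔ ∃ w : ℕ → M, t.ev (apv m w v) = s.ev (apv m w v)

/-- the bound `Q` -/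
def Bd {M : Type} [PAModel M] (m : ℕ) (t s : PT) (y u : M) (v : ℕ → M) : M :=
  t.ev (apv m (fun _ => u) (cns y v)) + s.ev (apv m (fun _ => u) (cns y v)) + y + u + 3

/-- the condition without bounded quantifiers -/
def Core {M : Type} [PAModel M] (m : ℕ) (t s : PT) (y u : M) (v a : ℕ → M) : Prop :=
  ∃ c, c + 1 = fc (Bd m t s y u v) * fc (Bd m t s y u v) ∧
    (∀ j, j < m → bn c y ∣ bn (a j) (u + 1)) ∧
    Cg (bn c y) (t.ev (apv m a (cns c v))) (s.ev (apv m a (cns c v)))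

/-- part BB9 (uses BB5, BB6, BB7, BB4): from witnesses to codes. Choose `f i` = the least code
(BB7) of a sequence of witnesses, `F j i = ap (f i) j`, `u` a bound of all `F j i`
(library `exists_bound`), `a j` by BB6 with `f := F j`. -/
def S_BB9 : Prop := ∀ (M : Type) [PAModel M] (m : ℕ) (t s : PT) (y : M) (v : ℕ → M),
  (∀ i, i < y → ∃ w : ℕ → M, t.ev (apv m w (cns i v)) = s.ev (apv m w (cns i v))) →
    ∃ (u : M) (a : ℕ → M), Core m t s y u v a

/-- part BB10 (uses BB3, BB4, BB5): from codes to witnesses. For `i < y` a prime `p ∣ m_i` is `> Q`,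
`p ∣ bn c y ∣ bn (a j) (u + 1) ∣ ff (a j) (u + 1)` gives `w j ≤ u` with `a j ≡ w j`; both values of
`t`, `s` are `≤ Q < p` (`ev_mono`) and congruent modulo `p` (`ev_cg`). -/
def S_BB10 : Prop := ∀ (M : Type) [PAModel M] (m : ℕ) (t s : PT) (y u : M) (v a : ℕ → M),
  Core m t s y u v a →
    ∀ i, i < y → ∃ w : ℕ → M, t.ev (apv m w (cns i v)) = s.ev (apv m w (cns i v))

/-- part BB11: the condition is existential. `∃ a, R (apv (m+1) a v) ↔ ∃ x, ∃ a, R (apv m a (cns x v))`;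
`a j = apv m a v j`, `v n = apv m a v (n + m)`. -/
def S_BB11 : Prop := Dio (fun _ _ v => v 0 = bn (v 1) (v 2)) → Dio (fun _ _ v => v 0 = fc (v 1)) →
  ∀ (m : ℕ) (t s : PT) (f : ∀ (M : Type) [PAModel M], (ℕ → M) → M), DioF f →
    Dio (fun M _ v => ∃ (u : M) (a : ℕ → M), Core m t s (f M v) u v a)

end Pool.Agent.H4.EPB
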